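import Mathlib

/-!
# An almost discretely Lindelöf Hausdorff space that is not weakly Lindelöf

Let `κ_n = ω_{n+1}` and let `R n = κ_n + 1` (with top element `⊤ = κ_n`). The points are
* (first kind) the `z ∈ ∏ R n` with `z n ≠ ⊥` for all `n` and `z n < ⊤` for infinitely many `n`;
* (second kind) the `y ∈ ∏ κ_n` with `y n ≠ ⊥` for all `n`.

Basic neighbourhoods of a point `z` of the first kind: `{z}` together with all points `p` (of both
kinds) with `a i < p i ≤ z i` for `i < n` and `¬ z ≤ p` (everywhere order).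
Basic neighbourhoods of a point `y` of the second kind: all points `y'` of the second kind with
`y' i = y i` for `i < n` and `y ≤ y'`.

The sets `{p | p n ≤ ξ}`, `ξ < κ_n`, form an open cover without a countable subfamily with dense
union. Every discrete set is contained in a set of the form
`{p | p n ≤ g n for infinitely many n}` with `g ∈ ∏ κ_n`, and all these sets are Lindelöf.
-/

open Set

namespace Pool.Agent.Results.MP_a09c40_gt.NotWeaklyLindelof

/-- A space is almost discretely Lindelöf if every discrete subset is contained in a Lindelöf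
subset. -/
def AlmostDiscretelyLindelof (X : Type*) [TopologicalSpace X] : Prop :=
  ∀ D : Set X, DiscreteTopology D → ∃ L : Set X, D ⊆ L ∧ IsLindelof L

/-- A space is weakly Lindelöf if every open cover has a countable subfamily with dense union. -/
def WeaklyLindelof (X : Type*) [TopologicalSpace X] : Prop :=
  ∀ 𝒰 : Set (Set X), (∀ U ∈ 𝒰, IsOpen U) → ⋃₀ 𝒰 = Set.univ →
    ∃ 𝒱 ⊆ 𝒰, 𝒱.Countable ∧ Dense (⋃₀ 𝒱)

section closing

variable {R : ℕ → Type} [∀ i, LinearOrder (R i)] [∀ i, WellFoundedLT (R i)]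
  [∀ i, BoundedOrder (R i)]

/-- The finite code of the first `n` coordinates of `x`. -/
def code (n : ℕ) (x : ∀ i, R i) : List (Σ i, R i) :=
  List.ofFn fun i : Fin n => (⟨i, x i⟩ : Σ i, R i)

omit [∀ i, LinearOrder (R i)] [∀ i, WellFoundedLT (R i)] [∀ i, BoundedOrder (R i)] in
theorem code_eq_iff {n m : ℕ} {x y : ∀ i, R i} :
    code n x = code m y ↔ n = m ∧ ∀ i < n, x i = y i := by
  unfold code
  rw [List.ofFn_inj']
  constructor
  · intro h
    have h1 : n = m := congrArg Sigma.fst h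
    subst h1
    refine ⟨rfl, fun i hi => ?_⟩
    simp only [Sigma.mk.injEq, heq_eq_eq, true_and] at h
    have := congrFun h ⟨i, hi⟩
    simpa using this
  · rintro ⟨rfl, h⟩
    simp only [Sigma.mk.injEq, heq_eq_eq, true_and]
    funext i
    simp [h i i.2]

/-- A closing-off lemma: a countable set closed under a countable-set-valued operation on lists. -/
theorem exists_closed {α : Type} (Φ : List α → Set α) (hΦ : ∀ l, (Φ l).Countable)
    (M₀ : Set α) (hM₀ : M₀.Countable) :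
    ∃ M : Set α, M₀ ⊆ M ∧ M.Countable ∧ ∀ l : List α, (∀ a ∈ l, a ∈ M) → Φ l ⊆ M := by
  classical
  let step : Set α → Set α := fun M => M ∪ ⋃ l ∈ {l : List α | ∀ a ∈ l, a ∈ M}, Φ l
  have hlist : ∀ M : Set α, M.Countable → {l : List α | ∀ a ∈ l, a ∈ M}.Countable := by
    intro M hM
    have : Countable M := hM.to_subtype
    refine (Set.countable_range (fun l : List M => l.map Subtype.val)).mono ?_
    intro l hl
    refine ⟨l.pmap (fun a ha => ⟨a, ha⟩) hl, ?_⟩
    simp [List.map_pmap]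
  have hstep : ∀ M : Set α, M.Countable → (step M).Countable := fun M hM =>
    hM.union ((hlist M hM).biUnion fun l _ => hΦ l)
  let seq : ℕ → Set α := fun k => step^[k] M₀
  have hseq0 : seq 0 = M₀ := rfl
  have hseqs : ∀ k, seq (k + 1) = step (seq k) := fun k => Function.iterate_succ_apply' step k M₀
  have hcount : ∀ k, (seq k).Countable := by
    intro k
    induction k with
    | zero => exact hM₀
    | succ k ih => rw [hseqs]; exact hstep _ ih
  have hmono : Monotone seq := monotone_nat_of_le_succ fun k => by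
    rw [hseqs]; exact subset_union_left
  refine ⟨⋃ k, seq k, subset_iUnion seq 0, countable_iUnion hcount, fun l hl => ?_⟩
  have hfin : ∃ k, ∀ a ∈ l, a ∈ seq k := by
    induction l with
    | nil => exact ⟨0, by simp⟩
    | cons a l ih =>
      obtain ⟨k, hk⟩ := ih fun b hb => hl b (List.mem_cons_of_mem _ hb)
      obtain ⟨k', hk'⟩ := mem_iUnion.mp (hl a List.mem_cons_self)
      refine ⟨max k k', fun b hb => ?_⟩
      rcases List.mem_cons.mp hb with rfl | hb
      · exact hmono (le_max_right _ _) hk'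
      · exact hmono (le_max_left _ _) (hk b hb)
  obtain ⟨k, hk⟩ := hfin
  refine subset_iUnion_of_subset (k + 1) ?_
  rw [hseqs]
  exact subset_union_of_subset_right (subset_biUnion_of_mem (u := Φ) (show l ∈ {l : List α | ∀ a ∈ l, a ∈ seq k} from hk)) _

/-- The key lemma for the Lindelöf property. -/
theorem exists_countable_cover (g : ∀ i, R i) (ν : (∀ i, R i) → ℕ)
    (a : (∀ i, R i) → ∀ i, R i)
    (L : Set (∀ i, R i)) (hL : L = {x | (∀ i, ⊥ < x i) ∧ {i | x i ≤ g i}.Infinite})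
    (ha : ∀ z ∈ L, ∀ i, a z i < z i) :
    ∃ S : Set (∀ i, R i), S.Countable ∧ S ⊆ L ∧ ∀ x ∈ L, ∃ z ∈ S,
      (∀ i < ν z, a z i < x i ∧ x i ≤ z i) ∧ (¬ z ≤ x ∨ x = z) := by
  classical
  -- `H l` is the set of points of `L` with code `l`
  let H : List (Σ i, R i) → Set (∀ i, R i) := fun l => {z | z ∈ L ∧ code (ν z) z = l}
  let P1 : List (Σ i, R i) → (Σ i, R i) → Set (∀ i, R i) := fun l d => {z | z ∈ H l ∧ d.2 < z d.1}
  let P1' : List (Σ i, R i) → (Σ i, R i) → Set (∀ i, R i) := fun l d =>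
    {z | ∃ h : (P1 l d).Nonempty, z = h.some}
  let P2 : List (Σ i, R i) → Set (∀ i, R i) := fun l => {z | z ∈ H l ∧ ∀ z' ∈ H l, z' ≤ z}
  have hP1' : ∀ l d, (P1' l d).Countable := fun l d => by
    refine Set.Subsingleton.countable ?_
    rintro z ⟨h, rfl⟩ z' ⟨h', rfl⟩
    rfl
  have hP2 : ∀ l, (P2 l).Countable := fun l => by
    refine Set.Subsingleton.countable ?_
    intro z hz z' hz'
    exact le_antisymm (hz'.2 z hz.1) (hz.2 z' hz'.1)
  let pts : Set (∀ i, R i) → Set (Σ i, R i) := fun S => ⋃ z ∈ S, range fun i => (⟨i, a z i⟩ : Σ i, R i)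
  have hpts : ∀ S : Set (∀ i, R i), S.Countable → (pts S).Countable := fun S hS =>
    hS.biUnion fun z _ => countable_range _
  let Φ : List (Σ i, R i) → Set (Σ i, R i) := fun l => match l with
    | [] => pts (P2 [])
    | d :: l => pts (P2 (d :: l)) ∪ pts (P1' l d)
  have hΦ : ∀ l, (Φ l).Countable := by
    intro l
    cases l with
    | nil => exact hpts _ (hP2 _)
    | cons d l => exact (hpts _ (hP2 _)).union (hpts _ (hP1' _ _))
  obtain ⟨M, hM₀, hMc, hM⟩ := exists_closed Φ hΦ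
    (range (fun i => (⟨i, ⊤⟩ : Σ i, R i)) ∪ range (fun i => (⟨i, g i⟩ : Σ i, R i)))
    ((countable_range _).union (countable_range _))
  have htop : ∀ i, (⟨i, ⊤⟩ : Σ i, R i) ∈ M := fun i => hM₀ (Or.inl ⟨i, rfl⟩)
  have hg : ∀ i, (⟨i, g i⟩ : Σ i, R i) ∈ M := fun i => hM₀ (Or.inr ⟨i, rfl⟩)
  let LM : Set (List (Σ i, R i)) := {l | ∀ d ∈ l, d ∈ M}
  have hLM : LM.Countable := by
    have : Countable M := hMc.to_subtype
    refine (Set.countable_range (fun l : List M => l.map Subtype.val)).mono ?_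
    intro l hl
    refine ⟨l.pmap (fun a ha => ⟨a, ha⟩) hl, ?_⟩
    simp [List.map_pmap]
  refine ⟨(⋃ l ∈ LM, P2 l) ∪ ⋃ l ∈ LM, ⋃ d ∈ M, P1' l d, ?_, ?_, ?_⟩
  · exact (hLM.biUnion fun l _ => hP2 l).union
      (hLM.biUnion fun l _ => hMc.biUnion fun d _ => hP1' l d)
  · rintro z (hz | hz)
    · simp only [mem_iUnion] at hz
      obtain ⟨l, _, hz⟩ := hz
      exact hz.1.1
    · simp only [mem_iUnion] at hz
      obtain ⟨l, _, d, _, h, rfl⟩ := hz
      exact h.some_mem.1.1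
  · intro x hx
    have hx' := hx
    rw [hL] at hx'
    -- the approximation of `x` from above in `M`
    have hne : ∀ i, {m : R i | (⟨i, m⟩ : Σ i, R i) ∈ M ∧ x i ≤ m}.Nonempty := fun i =>
      ⟨⊤, htop i, le_top⟩
    let xM : ∀ i, R i := fun i => WellFounded.min wellFounded_lt _ (hne i)
    have hxM1 : ∀ i, (⟨i, xM i⟩ : Σ i, R i) ∈ M := fun i =>
      (WellFounded.min_mem wellFounded_lt _ (hne i)).1
    have hxM2 : ∀ i, x i ≤ xM i := fun i => (WellFounded.min_mem wellFounded_lt _ (hne i)).2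
    have hxM3 : ∀ i (m : R i), (⟨i, m⟩ : Σ i, R i) ∈ M → x i ≤ m → xM i ≤ m := fun i m h1 h2 =>
      WellFounded.min_le wellFounded_lt (s := {m : R i | (⟨i, m⟩ : Σ i, R i) ∈ M ∧ x i ≤ m}) ⟨h1, h2⟩
    have hxML : xM ∈ L := by
      rw [hL]
      refine ⟨fun i => (hx'.1 i).trans_le (hxM2 i), hx'.2.mono fun i hi => hxM3 i _ (hg i) hi⟩
    have hcode : code (ν xM) xM ∈ LM := by
      intro d hd
      simp only [code, List.mem_ofFn] at hd
      obtain ⟨i, rfl⟩ := hd
      exact hxM1 i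
    -- a lower bound in `M` below `xM i` is below `x i`
    have hlow : ∀ i (m : R i), (⟨i, m⟩ : Σ i, R i) ∈ M → m < xM i → m < x i := by
      intro i m h1 h2
      by_contra h3
      exact absurd (hxM3 i m h1 (not_lt.mp h3)) (not_le_of_gt h2)
    by_cases hcase : ∃ z ∈ H (code (ν xM) xM), ∃ j, xM j < z j
    · obtain ⟨z₀, hz₀, j, hj⟩ := hcase
      have hP : (P1 (code (ν xM) xM) ⟨j, xM j⟩).Nonempty := ⟨z₀, hz₀, hj⟩
      refine ⟨hP.some, Or.inr ?_, ?_, Or.inl ?_⟩
      · simp only [mem_iUnion]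
        exact ⟨_, hcode, ⟨j, xM j⟩, hxM1 j, hP, rfl⟩
      · have hmem := hP.some_mem
        have hc := code_eq_iff.mp hmem.1.2
        have haM : ∀ i, (⟨i, a hP.some i⟩ : Σ i, R i) ∈ M := by
          intro i
          refine hM (⟨j, xM j⟩ :: code (ν xM) xM) ?_ (Or.inr ?_)
          · intro d hd
            rcases List.mem_cons.mp hd with rfl | hd
            · exact hxM1 j
            · exact hcode d hd
          · simp only [pts, mem_iUnion]
            exact ⟨hP.some, ⟨hP, rfl⟩, i, rfl⟩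
        intro i hi
        have h1 : hP.some i = xM i := hc.2 i hi
        refine ⟨hlow i _ (haM i) ?_, ?_⟩
        · rw [← h1]
          exact ha _ hmem.1.1 i
        · rw [h1]
          exact hxM2 i
      · intro hle
        have h1 : xM j < hP.some j := hP.some_mem.2
        exact absurd (h1.trans_le (hle j)) (not_lt_of_ge (hxM2 j))
    · push Not at hcase
      have hmem2 : xM ∈ P2 (code (ν xM) xM) := ⟨⟨hxML, rfl⟩, fun z' hz' j => hcase z' hz' j⟩
      refine ⟨xM, Or.inl ?_, ?_, ?_⟩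
      · simp only [mem_iUnion]
        exact ⟨_, hcode, hmem2⟩
      · have haM : ∀ i, (⟨i, a xM i⟩ : Σ i, R i) ∈ M := by
          intro i
          have h1 : (⟨i, a xM i⟩ : Σ i, R i) ∈ pts (P2 (code (ν xM) xM)) := by
            simp only [pts, mem_iUnion]
            exact ⟨xM, hmem2, i, rfl⟩
          refine hM (code (ν xM) xM) hcode ?_
          generalize code (ν xM) xM = l at h1
          cases l with
          | nil => exact h1
          | cons d l => exact Or.inl h1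
        intro i _
        exact ⟨hlow i _ (haM i) (ha _ hxML i), hxM2 i⟩
      · by_cases h : xM ≤ x
        · exact Or.inr (le_antisymm hxM2 h)
        · exact Or.inl h

end closing

section space

variable (R : ℕ → Type) [∀ i, LinearOrder (R i)] [∀ i, BoundedOrder (R i)]

/-- Points of the first kind: functions `x ∈ ∏ R i` with `⊥ < x i` for all `i` and `x i < ⊤` for
infinitely many `i`. -/
def ZPt : Type := {x : ∀ i, R i // (∀ i, ⊥ < x i) ∧ {i | x i < ⊤}.Infinite}

/-- Points of the second kind: functions `y ∈ ∏ R i` with `⊥ < y i < ⊤` for all `i`. -/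
def YPt : Type := {y : ∀ i, R i // ∀ i, ⊥ < y i ∧ y i < ⊤}

/-- The underlying set of the example. -/
def Pt : Type := ZPt R ⊕ YPt R

variable {R}

/-- The function underlying a point. -/
def val : Pt R → ∀ i, R i := Sum.elim Subtype.val Subtype.val

/-- The topology of the example. A point `z` of the first kind has as basic neighbourhoods
`{z} ∪ {p | a i < p i ≤ z i for i < n, and not z ≤ p}`, and a point `y` of the second kind
has as basic neighbourhoods the sets of points `y'` of the second kind with `y' i = y i` for `i < n`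
and `y ≤ y'`. -/
instance instTop : TopologicalSpace (Pt R) where
  IsOpen O :=
    (∀ z : ZPt R, (Sum.inl z : Pt R) ∈ O → ∃ (n : ℕ) (a : ∀ i, R i), (∀ i, a i < z.1 i) ∧
      ∀ p : Pt R, (∀ i < n, a i < val p i ∧ val p i ≤ z.1 i) → ¬ z.1 ≤ val p → p ∈ O) ∧
    (∀ y : YPt R, (Sum.inr y : Pt R) ∈ O → ∃ n : ℕ, ∀ y' : YPt R, (∀ i < n, y'.1 i = y.1 i) →
      y.1 ≤ y'.1 → (Sum.inr y' : Pt R) ∈ O)
  isOpen_univ := ⟨fun z _ => ⟨0, fun _ => ⊥, z.2.1, fun _ _ _ => trivial⟩,
    fun _ _ => ⟨0, fun _ _ _ => trivial⟩⟩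
  isOpen_inter := by
    rintro O O' ⟨h1, h2⟩ ⟨h1', h2'⟩
    refine ⟨?_, ?_⟩
    · rintro z ⟨hz, hz'⟩
      obtain ⟨n, a, ha, h⟩ := h1 z hz
      obtain ⟨n', a', ha', h'⟩ := h1' z hz'
      refine ⟨max n n', fun i => max (a i) (a' i), fun i => max_lt (ha i) (ha' i), ?_⟩
      intro p hp hzp
      refine ⟨h p (fun i hi => ?_) hzp, h' p (fun i hi => ?_) hzp⟩
      · have := hp i (hi.trans_le (le_max_left _ _))
        exact ⟨(le_max_left _ _).trans_lt this.1, this.2⟩
      · have := hp i (hi.trans_le (le_max_right _ _))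
        exact ⟨(le_max_right _ _).trans_lt this.1, this.2⟩
    · rintro y ⟨hy, hy'⟩
      obtain ⟨n, h⟩ := h2 y hy
      obtain ⟨n', h'⟩ := h2' y hy'
      refine ⟨max n n', fun y' hy1 hy2 => ⟨h y' (fun i hi => ?_) hy2, h' y' (fun i hi => ?_) hy2⟩⟩
      · exact hy1 i (hi.trans_le (le_max_left _ _))
      · exact hy1 i (hi.trans_le (le_max_right _ _))
  isOpen_sUnion := by
    intro 𝒰 h𝒰
    refine ⟨?_, ?_⟩
    · rintro z ⟨O, hO, hz⟩
      obtain ⟨n, a, ha, h⟩ := (h𝒰 O hO).1 z hz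
      exact ⟨n, a, ha, fun p hp hzp => ⟨O, hO, h p hp hzp⟩⟩
    · rintro y ⟨O, hO, hy⟩
      obtain ⟨n, h⟩ := (h𝒰 O hO).2 y hy
      exact ⟨n, fun y' h1 h2 => ⟨O, hO, h y' h1 h2⟩⟩

theorem isOpen_iff' {O : Set (Pt R)} : IsOpen O ↔
    (∀ z : ZPt R, (Sum.inl z : Pt R) ∈ O → ∃ (n : ℕ) (a : ∀ i, R i), (∀ i, a i < z.1 i) ∧
      ∀ p : Pt R, (∀ i < n, a i < val p i ∧ val p i ≤ z.1 i) → ¬ z.1 ≤ val p → p ∈ O) ∧
    (∀ y : YPt R, (Sum.inr y : Pt R) ∈ O → ∃ n : ℕ, ∀ y' : YPt R, (∀ i < n, y'.1 i = y.1 i) →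
      y.1 ≤ y'.1 → (Sum.inr y' : Pt R) ∈ O) := Iff.rfl

/-- The open sets `U i ξ = {p | p i ≤ ξ}`. -/
theorem isOpen_le (i : ℕ) (ξ : R i) : IsOpen {p : Pt R | val p i ≤ ξ} := by
  rw [isOpen_iff']
  refine ⟨fun z hz => ⟨i + 1, fun _ => ⊥, z.2.1, fun p hp _ => ?_⟩, fun y hy => ⟨i + 1, fun y' h1 _ => ?_⟩⟩
  · exact (hp i (Nat.lt_succ_self i)).2.trans hz
  · change y'.1 i ≤ ξ
    rw [h1 i (Nat.lt_succ_self i)]
    exact hy

theorem isOpen_gt (i : ℕ) (ξ : R i) : IsOpen {p : Pt R | ξ < val p i} := by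
  classical
  rw [isOpen_iff']
  refine ⟨fun z hz => ⟨i + 1, Function.update (fun _ => ⊥) i ξ, ?_, fun p hp _ => ?_⟩,
    fun y hy => ⟨i + 1, fun y' h1 _ => ?_⟩⟩
  · intro j
    by_cases hj : j = i
    · subst hj
      rw [Function.update_self]
      exact hz
    · rw [Function.update_of_ne hj]
      exact z.2.1 j
  · have := (hp i (Nat.lt_succ_self i)).1
    rw [Function.update_self] at this
    exact this
  · change ξ < y'.1 i
    rw [h1 i (Nat.lt_succ_self i)]
    exact hy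

/-- The basic neighbourhoods of points of the first kind which do not restrict coordinates. -/
theorem isOpen_nbhdZ (z : ZPt R) : 
    IsOpen ({p : Pt R | p = Sum.inl z ∨ ¬ z.1 ≤ val p}) := by
  rw [isOpen_iff']
  refine ⟨fun z' hz' => ?_, fun y hy => ?_⟩
  · rcases hz' with hz' | hz'
    · have h : z' = z := Sum.inl_injective hz'
      subst h
      exact ⟨0, fun _ => ⊥, z'.2.1, fun p _ hp => Or.inr hp⟩
    · have h : ¬ z.1 ≤ z'.1 := hz'
      rw [Pi.le_def] at h
      push Not at h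
      obtain ⟨k, hk⟩ := h
      refine ⟨k + 1, fun _ => ⊥, z'.2.1, fun p hp _ => Or.inr fun hle => ?_⟩
      exact absurd ((hle k).trans (hp k (Nat.lt_succ_self k)).2) (not_le_of_gt hk)
  · rcases hy with hy | hy
    · exact absurd hy (by rintro ⟨⟩)
    · have h : ¬ z.1 ≤ y.1 := hy
      rw [Pi.le_def] at h
      push Not at h
      obtain ⟨k, hk⟩ := h
      refine ⟨k + 1, fun y' h1 _ => Or.inr fun hle => ?_⟩
      have h2 : z.1 k ≤ y'.1 k := hle k
      rw [h1 k (Nat.lt_succ_self k)] at h2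
      exact absurd h2 (not_le_of_gt hk)

/-- The basic neighbourhoods of points of the second kind which do not restrict coordinates. -/
theorem isOpen_nbhdY (y : YPt R) : IsOpen (Sum.inr '' {y' : YPt R | y.1 ≤ y'.1} : Set (Pt R)) := by
  rw [isOpen_iff']
  refine ⟨fun z hz => ?_, fun y' hy' => ?_⟩
  · obtain ⟨_, _, h⟩ := hz
    exact absurd h (by rintro ⟨⟩)
  · obtain ⟨y'', hy'', h⟩ := hy'
    have h : y'' = y' := Sum.inr_injective h
    subst h
    exact ⟨0, fun y3 _ h3 => ⟨y3, le_trans hy'' h3, rfl⟩⟩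

instance instT2 : T2Space (Pt R) := by
  refine ⟨fun p q hpq => ?_⟩
  by_cases hval : val p = val q
  · -- same underlying function, different kinds
    have key : ∀ (z : ZPt R) (y : YPt R), z.1 = y.1 →
        ∃ u v : Set (Pt R), IsOpen u ∧ IsOpen v ∧ (Sum.inl z : Pt R) ∈ u ∧ (Sum.inr y : Pt R) ∈ v ∧
          Disjoint u v := by
      intro z y hzy
      refine ⟨_, _, isOpen_nbhdZ z, isOpen_nbhdY y, Or.inl rfl, ⟨y, le_refl y.1, rfl⟩, ?_⟩
      rw [Set.disjoint_left]
      rintro _ h ⟨y', hy', rfl⟩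
      rcases h with h | h
      · exact absurd h (by rintro ⟨⟩)
      · exact h (by rw [hzy]; exact hy')
    rcases p with z | y <;> rcases q with z' | y'
    · exact absurd (congrArg Sum.inl (Subtype.ext hval)) hpq
    · exact key z y' hval
    · obtain ⟨u, v, hu, hv, h1, h2, h3⟩ := key z' y hval.symm
      exact ⟨v, u, hv, hu, h2, h1, h3.symm⟩
    · exact absurd (congrArg Sum.inr (Subtype.ext hval)) hpq
  · have key : ∀ (p q : Pt R) (i : ℕ), val p i < val q i →
        ∃ u v : Set (Pt R), IsOpen u ∧ IsOpen v ∧ p ∈ u ∧ q ∈ v ∧ Disjoint u v := by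
      intro p q i h
      refine ⟨_, _, isOpen_le i (val p i), isOpen_gt i (val p i), le_refl _, h, ?_⟩
      rw [Set.disjoint_left]
      intro r h1 h2
      exact absurd h2 (not_lt_of_ge h1)
    obtain ⟨i, hi⟩ := Function.ne_iff.mp hval
    rcases lt_or_gt_of_ne hi with h | h
    · exact key p q i h
    · obtain ⟨u, v, hu, hv, h1, h2, h3⟩ := key q p i h
      exact ⟨v, u, hv, hu, h2, h1, h3.symm⟩

/-- A directedness hypothesis on the factors: `R i ∖ {⊤}` has no cofinal family indexed by the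
finite sequences of length at most `i`. -/
def Directed' (R : ℕ → Type) [∀ i, LinearOrder (R i)] [∀ i, BoundedOrder (R i)] : Prop :=
  ∀ (i : ℕ) (S : (Σ n : Fin (i + 1), ∀ j : Fin n, R j) → R i), (∀ t, S t < ⊤) →
    ∃ b, b < ⊤ ∧ ∀ t, S t < b

/-- A countable version of directedness. -/
def CountablyDirected (R : ℕ → Type) [∀ i, LinearOrder (R i)] [∀ i, BoundedOrder (R i)] : Prop :=
  ∀ (i : ℕ) (S : ℕ → R i), (∀ t, S t < ⊤) → ∃ b, b < ⊤ ∧ ∀ t, S t < b

theorem not_weaklyLindelof [∀ i, Nontrivial (R i)] (hR : CountablyDirected R) : ¬ WeaklyLindelof (Pt R) := by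
  classical
  intro hw
  obtain ⟨𝒱, h𝒱, hc, hd⟩ := hw {U | ∃ (i : ℕ) (ξ : R i), ξ < ⊤ ∧ U = {p : Pt R | val p i ≤ ξ}}
    (by rintro U ⟨i, ξ, _, rfl⟩; exact isOpen_le i ξ)
    (by
      rw [sUnion_eq_univ_iff]
      intro p
      have : ∃ i, val p i < ⊤ := by
        rcases p with z | y
        · obtain ⟨i, hi⟩ := z.2.2.nonempty
          exact ⟨i, hi⟩
        · exact ⟨0, (y.2 0).2⟩
      obtain ⟨i, hi⟩ := this
      exact ⟨_, ⟨i, val p i, hi, rfl⟩, le_refl (val p i)⟩)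
  -- the function `f V i = ξ` if `V = U i ξ` with `ξ < ⊤`, and `⊥` if there is no such `ξ`
  let f : Set (Pt R) → ∀ i, R i := fun V i =>
    if h : ∃ ξ : R i, ξ < ⊤ ∧ V = {p : Pt R | val p i ≤ ξ} then h.choose else ⊥
  have hf1 : ∀ V i, f V i < ⊤ := by
    intro V i
    by_cases h : ∃ ξ : R i, ξ < ⊤ ∧ V = {p : Pt R | val p i ≤ ξ}
    · simp only [f, dif_pos h]
      exact h.choose_spec.1
    · simp only [f, dif_neg h]
      exact bot_lt_top
  have hf2 : ∀ V i (ξ : R i), ξ < ⊤ → V = {p : Pt R | val p i ≤ ξ} →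
      V = {p : Pt R | val p i ≤ f V i} := by
    intro V i ξ hξ hV
    have h : ∃ ξ : R i, ξ < ⊤ ∧ V = {p : Pt R | val p i ≤ ξ} := ⟨ξ, hξ, hV⟩
    simp only [f, dif_pos h]
    exact h.choose_spec.2
  have hb : ∀ i, ∃ b : R i, ⊥ < b ∧ b < ⊤ ∧ ∀ V ∈ 𝒱, f V i < b := by
    intro i
    rcases 𝒱.eq_empty_or_nonempty with h0 | hne
    · obtain ⟨b, hb1, hb2⟩ := hR i (fun _ => ⊥) fun _ => bot_lt_top
      exact ⟨b, hb2 0, hb1, by simp [h0]⟩
    · obtain ⟨e, he⟩ := hc.exists_eq_range hne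
      obtain ⟨b, hb1, hb2⟩ := hR i (fun t => f (e t) i) fun t => hf1 _ _
      refine ⟨b, bot_le.trans_lt (hb2 0), hb1, ?_⟩
      rw [he]
      rintro V ⟨t, rfl⟩
      exact hb2 t
  choose b hb0 hb1 hb2 using hb
  let y : YPt R := ⟨b, fun i => ⟨hb0 i, hb1 i⟩⟩
  obtain ⟨q, hq1, hq2⟩ := hd.inter_open_nonempty _ (isOpen_nbhdY y) ⟨Sum.inr y, y, le_refl y.1, rfl⟩
  obtain ⟨y', hy', rfl⟩ := hq1
  obtain ⟨V, hV, hq3⟩ := hq2
  obtain ⟨i, ξ, hξ, hVξ⟩ := h𝒱 hV
  rw [hf2 V i ξ hξ hVξ] at hq3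
  have h1 : y'.1 i ≤ f V i := hq3
  have h2 : b i ≤ y'.1 i := hy' i
  exact absurd (h2.trans h1) (not_le_of_gt (hb2 i V hV))

/-- The boundedness lemma for discrete sets. -/
theorem exists_bound [∀ i, Nontrivial (R i)] (hR : Directed' R) (E : Set (∀ i, R i)) (ν : (∀ i, R i) → ℕ)
    (hE : ∀ x ∈ E, {i | x i < ⊤}.Infinite)
    (hν : ∀ x ∈ E, ∀ x' ∈ E, ∀ n, ν x ≤ n → ν x' ≤ n → (∀ i < n, x i = x' i) → x ≠ x' →
      ∃ i, x' i < x i ∧ x i < ⊤) :
    ∃ g : ∀ i, R i, (∀ i, g i < ⊤) ∧ ∀ x ∈ E, {i | x i ≤ g i}.Infinite := by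
  classical
  -- representatives
  let C : (n : ℕ) → (∀ j : Fin n, R j) → Set (∀ i, R i) := fun n s =>
    {x | x ∈ E ∧ ν x ≤ n ∧ ∀ j : Fin n, x j = s j}
  let r : (n : ℕ) → (∀ j : Fin n, R j) → ∀ i, R i := fun n s i =>
    if h : (C n s).Nonempty then (if h.some i < ⊤ then h.some i else ⊥) else ⊥
  have hr : ∀ n s i, r n s i < ⊤ := by
    intro n s i
    simp only [r]
    split_ifs with h1 h2
    · exact h2
    · exact bot_lt_top
    · exact bot_lt_top
  have hb : ∀ i, ∃ b : R i, b < ⊤ ∧ ∀ t : (Σ n : Fin (i + 1), ∀ j : Fin n, R j), r t.1 t.2 i < b :=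
    fun i => hR i (fun t => r t.1 t.2 i) fun t => hr _ _ _
  choose g hg1 hg2 using hb
  refine ⟨g, hg1, fun x hx => ?_⟩
  refine Set.infinite_of_forall_exists_gt fun m => ?_
  let n := max (ν x) (m + 1)
  let s : ∀ j : Fin n, R j := fun j => x j
  have hC : (C n s).Nonempty := ⟨x, hx, le_max_left _ _, fun _ => rfl⟩
  have hr0 := hC.some_mem
  have hkey : ∀ i, n ≤ i → hC.some i < ⊤ → hC.some i < g i := by
    intro i hi hlt
    have h1 := hg2 i ⟨⟨n, Nat.lt_succ_of_le hi⟩, s⟩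
    simp only [r] at h1
    rw [dif_pos hC, if_pos hlt] at h1
    exact h1
  have hmn : m < n := (Nat.lt_succ_self m).trans_le (le_max_right _ _)
  by_cases heq : hC.some = x
  · obtain ⟨i, hi, hi'⟩ := (hE x hx).exists_gt n
    have hi : x i < ⊤ := hi
    have h1 := hkey i hi'.le
    rw [heq] at h1
    exact ⟨i, (h1 hi).le, hmn.trans hi'⟩
  · obtain ⟨i, hi1, hi2⟩ := hν hC.some hr0.1 x hx n hr0.2.1 (le_max_left _ _)
      (fun i hi => hr0.2.2 ⟨i, hi⟩) heq
    have hin : n ≤ i := by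
      by_contra hcon
      have h2 : hC.some i = x i := hr0.2.2 ⟨i, not_le.mp hcon⟩
      exact absurd hi1 (by rw [h2]; exact lt_irrefl _)
    exact ⟨i, (hi1.trans (hkey i hin hi2)).le, hmn.trans_le hin⟩

/-- The Lindelöf subsets of the example. -/
theorem isLindelof_inf [∀ i, WellFoundedLT (R i)] (g : ∀ i, R i) (hg : ∀ i, g i < ⊤) :
    IsLindelof {p : Pt R | {i | val p i ≤ g i}.Infinite} := by
  classical
  refine isLindelof_of_countable_subcover fun {ι} U hU hcov => ?_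
  rcases isEmpty_or_nonempty ι with hι | hι
  · refine ⟨∅, countable_empty, ?_⟩
    intro p hp
    obtain ⟨i, _⟩ := mem_iUnion.mp (hcov hp)
    exact hι.elim i
  let L : Set (∀ i, R i) := {x | (∀ i, ⊥ < x i) ∧ {i | x i ≤ g i}.Infinite}
  have hLZ : ∀ x ∈ L, (∀ i, ⊥ < x i) ∧ {i | x i < ⊤}.Infinite := fun x hx =>
    ⟨hx.1, hx.2.mono fun i hi => lt_of_le_of_lt hi (hg i)⟩
  let zp : ∀ x ∈ L, Pt R := fun x hx => Sum.inl ⟨x, hLZ x hx⟩
  have hU' : ∀ x (hx : x ∈ L), ∃ k : ι, zp x hx ∈ U k := fun x hx =>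
    mem_iUnion.mp (hcov (show zp x hx ∈ _ from hx.2))
  have hU'' : ∀ x, ∃ (k : ι) (n : ℕ) (a : ∀ i, R i), x ∈ L → (∀ i, a i < x i) ∧
      (∀ hx : x ∈ L, zp x hx ∈ U k) ∧
      ∀ p : Pt R, (∀ i < n, a i < val p i ∧ val p i ≤ x i) → ¬ x ≤ val p → p ∈ U k := by
    intro x
    by_cases hx : x ∈ L
    · obtain ⟨k, hk⟩ := hU' x hx
      obtain ⟨n, a, ha, h⟩ := (isOpen_iff'.mp (hU k)).1 ⟨x, hLZ x hx⟩ hk
      exact ⟨k, n, a, fun _ => ⟨ha, fun _ => hk, h⟩⟩
    · exact ⟨hι.some, 0, fun _ => ⊥, fun h => absurd h hx⟩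
  choose k ν a hk using hU''
  obtain ⟨S, hSc, hSL, hS⟩ := exists_countable_cover g ν a L rfl fun z hz => (hk z hz).1
  -- an index covering the point of the second kind with underlying function `x`, if any
  have hY : ∀ x : ∀ i, R i, ∃ l : ι, ∀ y : YPt R, y.1 = x →
      (Sum.inr y : Pt R) ∈ {p : Pt R | {i | val p i ≤ g i}.Infinite} → (Sum.inr y : Pt R) ∈ U l := by
    intro x
    by_cases h : ∃ y : YPt R, y.1 = x ∧
        (Sum.inr y : Pt R) ∈ {p : Pt R | {i | val p i ≤ g i}.Infinite}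
    · obtain ⟨y, hy, hy'⟩ := h
      obtain ⟨l, hl⟩ := mem_iUnion.mp (hcov hy')
      refine ⟨l, fun y' hy1 _ => ?_⟩
      have : y' = y := Subtype.ext (hy1.trans hy.symm)
      rw [this]
      exact hl
    · exact ⟨hι.some, fun y hy hy' => absurd ⟨y, hy, hy'⟩ h⟩
  choose l hl using hY
  refine ⟨k '' S ∪ l '' S, (hSc.image k).union (hSc.image l), ?_⟩
  intro p hp
  have hpL : val p ∈ L := by
    refine ⟨?_, hp⟩
    rcases p with z | y
    · exact z.2.1
    · exact fun i => (y.2 i).1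
  obtain ⟨z, hzS, hz1, hz2⟩ := hS (val p) hpL
  have hz := hk z (hSL hzS)
  by_cases hle : z ≤ val p
  · have hval : val p = z := by
      rcases hz2 with h | h
      · exact absurd hle h
      · exact h
    rcases p with z' | y
    · refine mem_biUnion (Or.inl ⟨z, hzS, rfl⟩) ?_
      have h1 := hz.2.1 (hSL hzS)
      have h2 : (Sum.inl z' : Pt R) = zp z (hSL hzS) := congrArg Sum.inl (Subtype.ext hval)
      rw [h2]
      exact h1
    · exact mem_biUnion (Or.inr ⟨z, hzS, rfl⟩) (hl z y hval hp)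
  · exact mem_biUnion (Or.inl ⟨z, hzS, rfl⟩) (hz.2.2 p hz1 hle)

theorem almostDiscretelyLindelof [∀ i, WellFoundedLT (R i)] [∀ i, Nontrivial (R i)]
    (hR : Directed' R) : AlmostDiscretelyLindelof (Pt R) := by
  classical
  intro D hD
  -- isolating open sets
  have hiso : ∀ p ∈ D, ∃ O : Set (Pt R), IsOpen O ∧ p ∈ O ∧ ∀ q ∈ D, q ∈ O → q = p := by
    intro p hp
    obtain ⟨O, hO, hOD⟩ := isOpen_induced_iff.mp (isOpen_discrete ({⟨p, hp⟩} : Set D))
    refine ⟨O, hO, ?_, fun q hq hqO => ?_⟩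
    · have : (⟨p, hp⟩ : D) ∈ Subtype.val ⁻¹' O := by rw [hOD]; rfl
      exact this
    · have : (⟨q, hq⟩ : D) ∈ Subtype.val ⁻¹' O := hqO
      rw [hOD] at this
      exact congrArg Subtype.val this
  -- the two parts
  let EZ : Set (∀ i, R i) := {x | ∃ z : ZPt R, z.1 = x ∧ (Sum.inl z : Pt R) ∈ D}
  let EY : Set (∀ i, R i) := {x | ∃ y : YPt R, y.1 = x ∧ (Sum.inr y : Pt R) ∈ D}
  have hZ : ∀ x, ∃ n : ℕ, x ∈ EZ → ∀ x' ∈ EZ, (∀ i < n, x' i = x i) → x ≤ x' := by
    intro x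
    by_cases hx : x ∈ EZ
    · obtain ⟨z, rfl, hz⟩ := hx
      obtain ⟨O, hO, hzO, hOD⟩ := hiso _ hz
      obtain ⟨n, a, ha, h⟩ := (isOpen_iff'.mp hO).1 z hzO
      refine ⟨n, fun _ => ?_⟩
      rintro _ ⟨z', rfl, hz'⟩ hn
      by_contra hle
      have h1 : (Sum.inl z' : Pt R) ∈ O := h _ (fun i hi => by
        change a i < z'.1 i ∧ z'.1 i ≤ z.1 i
        rw [hn i hi]
        exact ⟨ha i, le_refl _⟩) hle
      have h2 := Sum.inl_injective (hOD _ hz' h1)
      rw [h2] at hle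
      exact hle le_rfl
    · exact ⟨0, fun h => absurd h hx⟩
  have hY : ∀ x, ∃ n : ℕ, x ∈ EY → ∀ x' ∈ EY, (∀ i < n, x' i = x i) → x ≤ x' → x' = x := by
    intro x
    by_cases hx : x ∈ EY
    · obtain ⟨y, rfl, hy⟩ := hx
      obtain ⟨O, hO, hyO, hOD⟩ := hiso _ hy
      obtain ⟨n, h⟩ := (isOpen_iff'.mp hO).2 y hyO
      refine ⟨n, fun _ => ?_⟩
      rintro _ ⟨y', rfl, hy'⟩ hn hle
      have h1 : (Sum.inr y' : Pt R) ∈ O := h y' hn hle
      exact congrArg Subtype.val (Sum.inr_injective (hOD _ hy' h1))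
    · exact ⟨0, fun h => absurd h hx⟩
  choose νZ hνZ using hZ
  choose νY hνY using hY
  obtain ⟨gZ, hgZ1, hgZ2⟩ := exists_bound hR EZ νZ
    (by rintro _ ⟨z, rfl, _⟩; exact z.2.2)
    (by
      intro x hx x' hx' n h1 h2 h3 hne
      refine absurd (le_antisymm ?_ ?_) hne
      · exact hνZ x hx x' hx' fun i hi => (h3 i (hi.trans_le h1)).symm
      · exact hνZ x' hx' x hx fun i hi => h3 i (hi.trans_le h2))
  obtain ⟨gY, hgY1, hgY2⟩ := exists_bound hR EY νY
    (by
      rintro _ ⟨y, rfl, _⟩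
      have : {i | y.1 i < ⊤} = Set.univ := Set.eq_univ_of_forall fun i => (y.2 i).2
      rw [this]
      exact Set.infinite_univ)
    (by
      intro x hx x' hx' n h1 _ h3 hne
      have h4 : ¬ x ≤ x' := fun hle =>
        hne (hνY x hx x' hx' (fun i hi => (h3 i (hi.trans_le h1)).symm) hle).symm
      rw [Pi.le_def] at h4
      push Not at h4
      obtain ⟨i, hi⟩ := h4
      obtain ⟨y, rfl, _⟩ := hx
      exact ⟨i, hi, (y.2 i).2⟩)
  refine ⟨{p : Pt R | {i | val p i ≤ max (gZ i) (gY i)}.Infinite}, ?_,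
    isLindelof_inf (fun i => max (gZ i) (gY i)) fun i => max_lt (hgZ1 i) (hgY1 i)⟩
  intro p hp
  rcases p with z | y
  · exact (hgZ2 z.1 ⟨z, rfl, hp⟩).mono fun i hi => le_trans hi (le_max_left _ _)
  · exact (hgY2 y.1 ⟨y, rfl, hp⟩).mono fun i hi => le_trans hi (le_max_right _ _)

end space

section instantiate

open Cardinal

/-- The well-ordered set of order type `ω_{n+1}`. -/
abbrev P (n : ℕ) : Type := (ℵ_ ((n : Ordinal.{0}) + 1)).ord.ToType

theorem mk_P (n : ℕ) : #(P n) = Order.succ (ℵ_ (n : Ordinal.{0})) := by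
  rw [P, mk_ord_toType, ← succ_aleph]

theorem nonempty_P (n : ℕ) : Nonempty (P n) := by
  rw [← Cardinal.mk_ne_zero_iff, mk_P]
  exact (bot_le.trans_lt (Order.lt_succ _)).ne'

noncomputable instance instBotP (n : ℕ) : OrderBot (P n) :=
  haveI := nonempty_P n
  WellFoundedLT.toOrderBot _

theorem bounded (n : ℕ) {ι : Type} (S : ι → P n) (hι : #ι ≤ ℵ_ (n : Ordinal.{0})) :
    ∃ b, ∀ i, S i < b := by
  have : NoMaxOrder (P n) := Cardinal.noMaxOrder (aleph0_le_aleph _)
  by_contra hcon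
  push Not at hcon
  have hcov : (Set.univ : Set (P n)) = ⋃ i : ι, Iio (Order.succ (S i)) := by
    symm
    rw [eq_univ_iff_forall]
    intro b
    obtain ⟨i, hi⟩ := hcon b
    exact mem_iUnion.mpr ⟨i, Order.lt_succ_of_le hi⟩
  have h1 : #(P n) ≤ ℵ_ (n : Ordinal.{0}) := by
    rw [← mk_univ, hcov]
    refine (mk_iUnion_le_sum_mk).trans ?_
    refine (sum_le_mk_mul_iSup _).trans ?_
    refine (mul_le_mul' hι (ciSup_le' (a := ℵ_ (n : Ordinal.{0})) fun i => ?_)).trans ?_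
    · have h2 := mk_Iio_lt (Order.succ (S i)) (by simp)
      exact Order.lt_succ_iff.mp (h2.trans_eq (mk_P n))
    · rw [mul_eq_self (aleph0_le_aleph _)]
  rw [mk_P] at h1
  exact absurd h1 (not_le_of_gt (Order.lt_succ _))

/-- The factors of the example. -/
abbrev Q (n : ℕ) : Type := WithTop (P n)

theorem bounded' (n : ℕ) {ι : Type} (S : ι → Q n) (hι : #ι ≤ ℵ_ (n : Ordinal.{0}))
    (hS : ∀ t, S t < ⊤) : ∃ b, b < ⊤ ∧ ∀ i, S i < b := by
  obtain ⟨b, hb⟩ := bounded n (fun t => (S t).untop (hS t).ne) hι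
  refine ⟨(b : Q n), WithTop.coe_lt_top b, fun t => ?_⟩
  have := hb t
  rw [← WithTop.coe_lt_coe, WithTop.coe_untop] at this
  exact this

theorem mk_Q_le (j i : ℕ) (h : j < i) : #(Q j) ≤ ℵ_ (i : Ordinal.{0}) := by
  have h1 : #(Q j) = #(P j) + 1 := mk_option
  rw [h1, mk_P, succ_aleph]
  have h2 : ((j : Ordinal.{0}) + 1) ≤ i := by exact_mod_cast h
  refine (add_le_add (aleph_le_aleph.mpr h2) (one_le_aleph0.trans (aleph0_le_aleph i))).trans ?_
  rw [add_eq_self (aleph0_le_aleph _)]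

theorem mk_index_le (i : ℕ) : #(Σ n : Fin (i + 1), ∀ j : Fin n, Q j) ≤ ℵ_ (i : Ordinal.{0}) := by
  have hinj : Function.Injective
      (fun t : (Σ n : Fin (i + 1), ∀ j : Fin n, Q j) =>
        (List.ofFn fun j : Fin t.1 => (⟨⟨j.1, by omega⟩, t.2 j⟩ : Σ j : Fin i, Q j))) := by
    rintro ⟨n, s⟩ ⟨m, t⟩ h
    simp only at h
    rw [List.ofFn_inj'] at h
    have h1 : (n : ℕ) = m := congrArg Sigma.fst h
    have h1' : n = m := Fin.ext h1
    subst h1'
    simp only [Sigma.mk.injEq, heq_eq_eq, true_and] at h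
    congr 1
    funext j
    have := congrFun h j
    simpa using this
  refine (mk_le_of_injective hinj).trans ?_
  refine (mk_list_le_max _).trans ?_
  refine max_le (aleph0_le_aleph _) ?_
  rw [mk_sigma]
  refine (sum_le_mk_mul_iSup _).trans ?_
  refine (mul_le_mul' (a := #(Fin i)) (b := ℵ_ (i : Ordinal.{0})) ?_ (ciSup_le' (a := ℵ_ (i : Ordinal.{0})) fun j => ?_)).trans ?_
  · exact (lt_aleph0_of_finite _).le.trans (aleph0_le_aleph _)
  · exact mk_Q_le j i j.2
  · rw [mul_eq_self (aleph0_le_aleph _)]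

theorem directedQ : Directed' Q := fun i S hS => bounded' i S (mk_index_le i) hS

theorem countablyDirectedQ : CountablyDirected Q := fun i S hS =>
  bounded' i S (by rw [mk_nat]; exact aleph0_le_aleph _) hS

end instantiate

/-- **There is a Hausdorff (in particular `T₁`) space which is almost discretely Lindelöf but not
weakly Lindelöf.** -/
theorem result : ∃ (X : Type) (_ : TopologicalSpace X), T2Space X ∧
    AlmostDiscretelyLindelof X ∧ ¬ WeaklyLindelof X :=
  ⟨Pt Q, instTop, instT2, almostDiscretelyLindelof directedQ, not_weaklyLindelof countablyDirectedQ⟩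

end Pool.Agent.Results.MP_a09c40_gt.NotWeaklyLindelof
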